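import Pool.Agent.H58.DGL.Galerkin

/-!
# Bounds for the truncated system, uniform in the truncation
-/

set_option autoImplicit false
open Finset Set
open scoped ComplexConjugate Topology

namespace Pool.Agent.H58.DGL

lemma summable_inv_mm : Summable (fun k : ℤ => (mm 1 k ^ 2)⁻¹) := by
  have h1 : Summable (fun n : ℕ => (((n : ℝ) + 1) ^ 2)⁻¹) := by
    have := (summable_nat_add_iff 1).mpr (Real.summable_nat_pow_inv.mpr (one_lt_two))
    refine this.congr fun n => ?_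
    push_cast
    rfl
  refine Summable.of_nat_of_neg ?_ ?_
  · refine h1.congr fun n => ?_
    simp only [mm, pow_one, Int.cast_natCast, Nat.abs_cast]
    rw [add_comm]
  · refine h1.congr fun n => ?_
    simp only [mm, pow_one, Int.cast_neg, Int.cast_natCast, abs_neg, Nat.abs_cast]
    rw [add_comm]

/-- the constant in `‖c‖_{ℓ¹} ≤ CA ‖c‖_{H¹}` -/
noncomputable def CA : ℝ := √(∑' k : ℤ, (mm 1 k ^ 2)⁻¹)

lemma CA_pos : 0 < CA := by
  unfold CA
  refine Real.sqrt_pos.mpr ?_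
  refine summable_inv_mm.tsum_pos (fun k => by positivity) 0 ?_
  simp [mm]

lemma sum_norm_le (S : Finset ℤ) (c : ℤ → ℂ) : ∑ k ∈ S, ‖c k‖ ≤ CA * √(EE 1 S c) := by
  have h1 := Real.sum_mul_le_sqrt_mul_sqrt S (fun k => (mm 1 k)⁻¹) (fun k => mm 1 k * ‖c k‖)
  have h2 : ∑ k ∈ S, (mm 1 k)⁻¹ * (mm 1 k * ‖c k‖) = ∑ k ∈ S, ‖c k‖ := by
    refine Finset.sum_congr rfl fun k _ => ?_
    rw [inv_mul_cancel_left₀ (mm_pos 1 k).ne']
  have h3 : ∑ k ∈ S, (mm 1 k * ‖c k‖) ^ 2 = EE 1 S c := by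
    unfold EE
    exact Finset.sum_congr rfl fun k _ => mul_pow _ _ _
  have h4 : ∑ k ∈ S, ((mm 1 k)⁻¹) ^ 2 ≤ ∑' k : ℤ, (mm 1 k ^ 2)⁻¹ := by
    have : ∀ k, ((mm 1 k)⁻¹) ^ 2 = (mm 1 k ^ 2)⁻¹ := fun k => inv_pow _ _
    simp only [this]
    exact summable_inv_mm.sum_le_tsum S fun k _ => by positivity
  rw [h2, h3] at h1
  refine h1.trans ?_
  unfold CA
  gcongr

/-- derivative of the weighted norm -/
lemma hasDerivAt_EE (s : ℕ) (S : Finset ℤ) {c : ℝ → ℤ → ℂ} {c' : ℤ → ℂ} {t : ℝ}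
    (h : ∀ k ∈ S, HasDerivAt (fun t => c t k) (c' k) t) :
    HasDerivAt (fun t => EE s S (c t))
      (2 * (∑ k ∈ S, ((mm s k ^ 2 : ℝ) : ℂ) * (conj (c t k) * c' k)).re) t := by
  have h1 : HasDerivAt (fun t => EE s S (c t))
      (∑ k ∈ S, mm s k ^ 2 * (2 * (conj (c t k) * c' k).re)) t := by
    unfold EE
    refine HasDerivAt.fun_sum fun k hk => ?_
    have h2 := ((h k hk).norm_sq).const_mul (mm s k ^ 2)
    rw [Complex.inner, mul_comm (c' k)] at h2
    exact h2
  have h3 : ∑ k ∈ S, mm s k ^ 2 * (2 * (conj (c t k) * c' k).re) =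
      2 * (∑ k ∈ S, ((mm s k ^ 2 : ℝ) : ℂ) * (conj (c t k) * c' k)).re := by
    rw [Complex.re_sum, Finset.mul_sum]
    refine Finset.sum_congr rfl fun k _ => ?_
    rw [Complex.re_ofReal_mul]
    ring
  rw [← h3]
  exact h1

/-- the energy inequality for the system with cut-off -/
lemma energy_deriv (s : ℕ) {S : Finset ℤ} {c : ℤ → ℂ} (hc : ∀ k, c (-k) = conj (c k))
    (hcS : ∀ k, k ∉ S → c k = 0) {θ : ℝ} (hθ : |θ| ≤ 1) :
    |2 * (∑ k ∈ S, ((mm (s + 1) k ^ 2 : ℝ) : ℂ) * (conj (c k) * ((θ : ℂ) * bb S c c k))).re| ≤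
      2 * KE s * CA * √(EE 1 S c) * EE (s + 1) S c := by
  have h1 := energy s hc hcS
  have h2 : ∑ k ∈ S, ((mm (s + 1) k ^ 2 : ℝ) : ℂ) * (conj (c k) * ((θ : ℂ) * bb S c c k)) =
      (θ : ℂ) * ∑ k ∈ S, ((mm (s + 1) k ^ 2 : ℝ) : ℂ) * (conj (c k) * bb S c c k) := by
    rw [Finset.mul_sum]
    exact Finset.sum_congr rfl fun k _ => by ring
  rw [h2, Complex.re_ofReal_mul, abs_mul, abs_mul, abs_of_pos (by norm_num : (0 : ℝ) < 2)]
  have h3 := sum_norm_le S c
  have h4 := EE_nonneg (s + 1) S c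
  have h5 := KE_pos s
  change |_| ≤ KE s * (∑ k ∈ S, ‖c k‖) * EE (s + 1) S c at h1
  calc 2 * (|θ| * |(∑ k ∈ S, ((mm (s + 1) k ^ 2 : ℝ) : ℂ) * (conj (c k) * bb S c c k)).re|)
      ≤ 2 * (1 * (KE s * (CA * √(EE 1 S c)) * EE (s + 1) S c)) := by
        gcongr
        exact h1.trans (by gcongr)
    _ = _ := by ring

/-- a scalar differential inequality -/
lemma fence_right {y y' : ℝ → ℝ} {K A : ℝ} (hK : 0 < K) (hA : 0 < A)
    (hy : ∀ t, HasDerivAt y (y' t) t) (h : ∀ t, y' t ≤ K * √(y t) * y t) (h0 : y 0 ≤ A) :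
    ∀ t ∈ Icc 0 (1 / (4 * K * √A)), y t ≤ 4 * A := by
  have hsA : 0 < √A := Real.sqrt_pos.mpr hA
  set B : ℝ → ℝ := fun t => A + 12 * K * √A * A * t with hB
  have hB' : ∀ t, HasDerivAt B (12 * K * √A * A) t := by
    intro t
    have h1 := ((hasDerivAt_id t).const_mul (12 * K * √A * A)).const_add A
    rw [mul_one] at h1
    exact h1
  have hB4 : ∀ t ∈ Icc 0 (1 / (4 * K * √A)), B t ≤ 4 * A := by
    intro t ht
    have h1 : 12 * K * √A * A * t ≤ 12 * K * √A * A * (1 / (4 * K * √A)) := by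
      have := ht.2
      gcongr
    have h2 : 12 * K * √A * A * (1 / (4 * K * √A)) = 3 * A := by
      field_simp
      norm_num
    simp only [hB]
    linarith
  have key : ∀ ⦃x⦄, x ∈ Icc 0 (1 / (4 * K * √A)) → y x ≤ B x := by
    refine image_le_of_deriv_right_lt_deriv_boundary (f' := y')
      (fun t _ => (hy t).continuousAt.continuousWithinAt) (fun t _ => (hy t).hasDerivWithinAt)
      (by simpa [hB] using h0) hB' ?_
    intro t ht hyB
    have h1 := hB4 t (Ico_subset_Icc_self ht)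
    rw [← hyB] at h1
    have h2 : 0 < y t := by
      rw [hyB]
      simp only [hB]
      have := ht.1
      positivity
    have h3 : √(y t) ≤ 2 * √A := by
      rw [Real.sqrt_le_left (by positivity)]
      rw [mul_pow, Real.sq_sqrt hA.le]
      linarith
    calc y' t ≤ K * √(y t) * y t := h t
      _ ≤ K * (2 * √A) * (4 * A) := by gcongr
      _ < 12 * K * √A * A := by nlinarith [mul_pos (mul_pos hK hsA) hA]
  exact fun t ht => (key ht).trans (hB4 t ht)

lemma fence {y y' : ℝ → ℝ} {K A : ℝ} (hK : 0 < K) (hA : 0 < A)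
    (hy : ∀ t, HasDerivAt y (y' t) t) (h : ∀ t, |y' t| ≤ K * √(y t) * y t) (h0 : y 0 ≤ A) :
    ∀ t ∈ Icc (-(1 / (4 * K * √A))) (1 / (4 * K * √A)), y t ≤ 4 * A := by
  intro t ht
  rcases le_total 0 t with h1 | h1
  · exact fence_right hK hA hy (fun t => (le_abs_self _).trans (h t)) h0 t ⟨h1, ht.2⟩
  · have h2 := fence_right (y := fun t => y (-t)) (y' := fun t => -y' (-t)) hK hA (fun t => by
      have := (hy (-t)).comp t (hasDerivAt_neg t)
      simpa [Function.comp_def] using this) (fun t => (neg_le_abs _).trans (h (-t)))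
      (by simpa using h0) (-t) ⟨by linarith, by linarith [ht.1]⟩
    simpa using h2

lemma growth_right {y y' : ℝ → ℝ} {L τ : ℝ} (hy : ∀ t, HasDerivAt y (y' t) t)
    (h : ∀ t ∈ Icc 0 τ, y' t ≤ L * y t) : ∀ t ∈ Icc 0 τ, y t ≤ y 0 * Real.exp (L * t) := by
  intro t ht
  have h1 : ∀ t, HasDerivAt (fun t => y t * Real.exp (-(L * t)))
      ((y' t - L * y t) * Real.exp (-(L * t))) t := by
    intro t
    have h2 : HasDerivAt (fun t => -(L * t)) (-L) t := by
      have := ((hasDerivAt_id t).const_mul L).neg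
      rw [mul_one] at this
      exact this
    have h3 := (hy t).mul h2.exp
    refine h3.congr_deriv ?_
    ring
  have h2 : AntitoneOn (fun t => y t * Real.exp (-(L * t))) (Icc 0 τ) := by
    refine antitoneOn_of_deriv_nonpos (convex_Icc 0 τ)
      (fun t _ => (h1 t).continuousAt.continuousWithinAt)
      (fun t _ => (h1 t).differentiableAt.differentiableWithinAt) fun t ht => ?_
    rw [(h1 t).deriv]
    have h3 := h t (interior_subset ht)
    exact mul_nonpos_of_nonpos_of_nonneg (by linarith) (Real.exp_pos _).le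
  have h3 := h2 ⟨le_rfl, ht.1.trans ht.2⟩ ht ht.1
  simp only [mul_zero, neg_zero, Real.exp_zero, mul_one] at h3
  have h4 : y t = y t * Real.exp (-(L * t)) * Real.exp (L * t) := by
    rw [mul_assoc, ← Real.exp_add]
    simp
  rw [h4]
  gcongr

lemma growth {y y' : ℝ → ℝ} {L τ : ℝ} (hy : ∀ t, HasDerivAt y (y' t) t)
    (h : ∀ t ∈ Icc (-τ) τ, |y' t| ≤ L * y t) :
    ∀ t ∈ Icc (-τ) τ, y t ≤ y 0 * Real.exp (L * |t|) := by
  intro t ht
  rcases le_total 0 t with h1 | h1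
  · rw [abs_of_nonneg h1]
    exact growth_right (τ := τ) hy (fun t ht => (le_abs_self _).trans
      (h t ⟨by linarith [ht.1, ht.2], ht.2⟩)) t ⟨h1, ht.2⟩
  · rw [abs_of_nonpos h1]
    have h2 := growth_right (y := fun t => y (-t)) (y' := fun t => -y' (-t)) (L := L) (τ := τ)
      (fun t => by
        have := (hy (-t)).comp t (hasDerivAt_neg t)
        simpa [Function.comp_def] using this) (fun t ht => (neg_le_abs _).trans
        (h (-t) ⟨by linarith [ht.2], by linarith [ht.1, ht.2]⟩)) (-t)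
        ⟨by linarith, by linarith [ht.1]⟩
    simpa using h2

/-- the existence time for initial values with `H¹` norm squared at most `A` -/
noncomputable def tau (A : ℝ) : ℝ := 1 / (4 * (2 * KE 0 * CA) * √A)

lemma tau_pos {A : ℝ} (hA : 0 < A) : 0 < tau A := by
  unfold tau
  have := KE_pos 0
  have := CA_pos
  positivity

/-- growth constant of the higher norms -/
noncomputable def GG (A : ℝ) (s : ℕ) : ℝ := Real.exp (2 * KE s * CA * √(4 * A) * tau A)

theorem galerkin_local {S : Finset ℤ} (hS : ∀ k ∈ S, -k ∈ S) {A : ℝ} (hA : 0 < A)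
    {c0 : ℤ → ℂ} (h0 : ∀ k, c0 (-k) = conj (c0 k)) (h0S : ∀ k, k ∉ S → c0 k = 0)
    (h0A : EE 1 S c0 ≤ A) :
    ∃ c : ℝ → ℤ → ℂ, c 0 = c0 ∧ (∀ t k, c t (-k) = conj (c t k)) ∧
      (∀ t k, k ∉ S → c t k = 0) ∧
      (∀ t ∈ Icc (-tau A) (tau A), ∀ k ∈ S,
        HasDerivAt (fun t => c t k) (bb S (c t) (c t) k) t) ∧
      (∀ t ∈ Icc (-tau A) (tau A), EE 1 S (c t) ≤ 4 * A) ∧
      ∀ s, ∀ t ∈ Icc (-tau A) (tau A), EE (s + 1) S (c t) ≤ EE (s + 1) S c0 * GG A s := by
  set θ : ℝ → ℝ := fun y => Real.smoothTransition ((8 * A - y) / (4 * A)) with hθdef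
  have hθ : ContDiff ℝ 1 θ := by
    refine Real.smoothTransition.contDiff.comp ?_
    exact (contDiff_const.sub contDiff_id).div_const _
  have hθ0 : ∀ y, 8 * A ≤ y → θ y = 0 := by
    intro y hy
    exact Real.smoothTransition.zero_of_nonpos (div_nonpos_of_nonpos_of_nonneg (by linarith)
      (by linarith))
  have hθ1 : ∀ y, y ≤ 4 * A → θ y = 1 := by
    intro y hy
    refine Real.smoothTransition.one_of_one_le ?_
    rw [le_div_iff₀ (by linarith)]
    linarith
  have hθ2 : ∀ y, |θ y| ≤ 1 := by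
    intro y
    rw [abs_of_nonneg (Real.smoothTransition.nonneg _)]
    exact Real.smoothTransition.le_one _
  obtain ⟨c, hc0, hcr, hcS, hc⟩ := galerkin hS hθ hθ0 h0 h0S
  set y' : ℕ → ℝ → ℝ := fun s t => 2 * (∑ k ∈ S, ((mm s k ^ 2 : ℝ) : ℂ) *
    (conj (c t k) * ((θ (EE 1 S (c t)) : ℂ) * bb S (c t) (c t) k))).re with hy'
  have hder : ∀ s t, HasDerivAt (fun t => EE s S (c t)) (y' s t) t := fun s t =>
    hasDerivAt_EE s S (hc t)
  have hen : ∀ s t, |y' (s + 1) t| ≤ 2 * KE s * CA * √(EE 1 S (c t)) * EE (s + 1) S (c t) :=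
    fun s t => energy_deriv s (hcr t) (hcS t) (hθ2 _)
  have hb1 : ∀ t ∈ Icc (-tau A) (tau A), EE 1 S (c t) ≤ 4 * A := by
    refine fence (y := fun t => EE 1 S (c t)) (y' := y' 1) (K := 2 * KE 0 * CA) ?_ hA
      (hder 1) (hen 0) ?_
    · have := KE_pos 0
      have := CA_pos
      positivity
    · simp only [hc0]; exact h0A
  refine ⟨c, hc0, hcr, hcS, fun t ht k hk => ?_, hb1, fun s t ht => ?_⟩
  · have h1 := hc t k hk
    rw [hθ1 _ (hb1 t ht)] at h1
    simpa using h1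
  · have hK := KE_pos s
    have hC := CA_pos
    have h1 := growth (y := fun t => EE (s + 1) S (c t)) (y' := y' (s + 1))
      (L := 2 * KE s * CA * √(4 * A)) (τ := tau A) (hder (s + 1)) (fun t ht => by
        refine (hen s t).trans ?_
        have h2 := hb1 t ht
        have h3 := EE_nonneg (s + 1) S (c t)
        gcongr) t ht
    simp only [hc0] at h1
    refine h1.trans ?_
    unfold GG
    have h3 := EE_nonneg (s + 1) S c0
    have h4 : |t| ≤ tau A := abs_le.mpr ht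
    gcongr

end Pool.Agent.H58.DGL
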