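import Mathlib

/-!
# Global solutions of ordinary differential equations with a bounded Lipschitz field
-/

set_option autoImplicit false
open Set
open scoped NNReal Topology

namespace Pool.Agent.H58.DGL

theorem ode_global {V : Type*} [NormedAddCommGroup V] [NormedSpace ℝ V] [CompleteSpace V]
    {f : V → V} {K : ℝ≥0} (hf : LipschitzWith K f) {L : ℝ≥0} (hL : ∀ x, ‖f x‖ ≤ L) (x0 : V) :
    ∃ α : ℝ → V, α 0 = x0 ∧ ∀ t, HasDerivAt α (f (α t)) t := by
  have h1 : ∀ n : ℕ, ∃ α : ℝ → V, α 0 = x0 ∧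
      ∀ t ∈ Ioo (-((n : ℝ) + 1)) ((n : ℝ) + 1), HasDerivAt α (f (α t)) t := by
    intro n
    set T : ℝ := (n : ℝ) + 1 with hTdef
    have hT : 0 < T := by positivity
    have hPL : IsPicardLindelof (fun _ => f) (tmin := -T) (tmax := T)
        ⟨0, by constructor <;> linarith⟩ x0 (L * ⟨T, hT.le⟩) 0 L K := by
      refine IsPicardLindelof.of_time_independent (fun x _ => hL x) hf.lipschitzOnWith ?_
      simp only [sub_zero, zero_sub, neg_neg, max_self, NNReal.coe_mul, NNReal.coe_zero]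
      exact le_rfl
    obtain ⟨α, h0, hα⟩ := hPL.exists_eq_forall_mem_Icc_hasDerivWithinAt₀
    exact ⟨α, h0, fun t ht => (hα t (Ioo_subset_Icc_self ht)).hasDerivAt (Icc_mem_nhds ht.1 ht.2)⟩
  choose α h0 hα using h1
  have huniq : ∀ n m : ℕ, n ≤ m →
      EqOn (α n) (α m) (Ioo (-((n : ℝ) + 1)) ((n : ℝ) + 1)) := by
    intro n m hnm
    have hnm' : (n : ℝ) ≤ m := by exact_mod_cast hnm
    refine ODE_solution_unique_of_mem_Ioo (v := fun _ => f) (s := fun _ => univ) (K := K)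
      (t₀ := 0) (fun _ _ => hf.lipschitzOnWith) ⟨?_, ?_⟩ (fun t ht => ⟨hα n t ht, mem_univ _⟩)
      (fun t ht => ⟨hα m t ⟨by linarith [ht.1], by linarith [ht.2]⟩, mem_univ _⟩)
      ((h0 n).trans (h0 m).symm)
    · have : (0 : ℝ) ≤ n := Nat.cast_nonneg n
      linarith
    · have : (0 : ℝ) ≤ n := Nat.cast_nonneg n
      linarith
  have hβ : ∀ (t : ℝ) (m : ℕ), |t| < m → α ⌈|t|⌉₊ t = α m t := by
    intro t m ht
    have h2 : ⌈|t|⌉₊ ≤ m := Nat.ceil_le.mpr ht.le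
    refine huniq _ _ h2 ?_
    have h3 := Nat.le_ceil |t|
    have h4 := abs_lt.mp (lt_of_le_of_lt h3 (lt_add_one _))
    exact ⟨h4.1, h4.2⟩
  refine ⟨fun t => α ⌈|t|⌉₊ t, by simp [h0], fun t => ?_⟩
  obtain ⟨m, hm⟩ := exists_nat_gt |t|
  have h2 : (fun s => α ⌈|s|⌉₊ s) =ᶠ[𝓝 t] α m := by
    have h3 : ∀ᶠ s in 𝓝 t, |s| < (m : ℝ) := (continuous_abs.tendsto t).eventually_lt_const hm
    filter_upwards [h3] with s hs
    exact hβ s m hs
  have h3 : α ⌈|t|⌉₊ t = α m t := hβ t m hm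
  simp only
  rw [h3]
  refine HasDerivAt.congr_of_eventuallyEq (hα m t ?_) h2
  have h4 := abs_lt.mp hm
  exact ⟨by linarith, by linarith⟩

theorem ode_global_compact {V : Type*} [NormedAddCommGroup V] [NormedSpace ℝ V]
    [FiniteDimensional ℝ V] {f : V → V} (hf : ContDiff ℝ 1 f) (hc : HasCompactSupport f)
    (x0 : V) : ∃ α : ℝ → V, α 0 = x0 ∧ ∀ t, HasDerivAt α (f (α t)) t := by
  have : CompleteSpace V := FiniteDimensional.complete ℝ V
  obtain ⟨K, hK⟩ := hf.lipschitzWith_of_hasCompactSupport hc one_ne_zero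
  obtain ⟨L, hL⟩ := hf.continuous.bounded_above_of_compact_support hc
  have hL0 : 0 ≤ L := (norm_nonneg _).trans (hL x0)
  exact ode_global hK (L := ⟨L, hL0⟩) hL x0

end Pool.Agent.H58.DGL
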