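import Mathlib

/-!
# De Gregorio, local theory: the energy inequalities for the truncated quadratic term

`SS N` = the frequencies `|k| ≤ N`, `bb S c d k = i Σ_{l ∈ S} (2 l - k) / |k - l| c (k - l) d l`
(the term `l = k` vanishes, `j = k - l` is the frequency of the velocity `u_j = - c_j / |j|`).
-/

set_option autoImplicit false
open Finset
open scoped ComplexConjugate

namespace Pool.Agent.H58.DGL

/-- the frequencies up to `N` -/
noncomputable def SS (N : ℕ) : Finset ℤ := Finset.Icc (-(N : ℤ)) N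

lemma mem_SS {N : ℕ} {k : ℤ} : k ∈ SS N ↔ |k| ≤ N := by
  rw [SS, Finset.mem_Icc, abs_le]

lemma neg_mem_SS {N : ℕ} {k : ℤ} : -k ∈ SS N ↔ k ∈ SS N := by
  rw [mem_SS, mem_SS, abs_neg]

/-- the quadratic term -/
noncomputable def bb (S : Finset ℤ) (c d : ℤ → ℂ) (k : ℤ) : ℂ :=
  Complex.I * ∑ l ∈ S, (((2 * l - k : ℤ) : ℂ) / ((|k - l| : ℤ) : ℂ)) * c (k - l) * d l

section Sums

lemma shift1 {S : Finset ℤ} {z : ℤ → ℝ} (h0 : ∀ k, 0 ≤ z k) (hz : ∀ k, k ∉ S → z k = 0) (k : ℤ) :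
    ∑ l ∈ S, z (k - l) ≤ ∑ l ∈ S, z l := by
  have h1 : ∑ l ∈ S, z (k - l) = ∑ j ∈ S.image (fun l => k - l), z j := by
    rw [Finset.sum_image]
    intro a _ b _ h
    simpa using h
  rw [h1]
  refine le_trans (Finset.sum_le_sum_of_subset_of_nonneg (t := S.image (fun l => k - l) ∪ S)
    Finset.subset_union_left fun i _ _ => h0 i) ?_
  refine le_of_eq ?_
  symm
  refine Finset.sum_subset Finset.subset_union_right fun i _ hi => hz i hi

lemma shift2 {S : Finset ℤ} {z : ℤ → ℝ} (h0 : ∀ k, 0 ≤ z k) (hz : ∀ k, k ∉ S → z k = 0) (l : ℤ) :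
    ∑ k ∈ S, z (k - l) ≤ ∑ k ∈ S, z k := by
  have h1 : ∑ k ∈ S, z (k - l) = ∑ j ∈ S.image (fun k => k - l), z j := by
    rw [Finset.sum_image]
    intro a _ b _ h
    simpa using h
  rw [h1]
  refine le_trans (Finset.sum_le_sum_of_subset_of_nonneg (t := S.image (fun k => k - l) ∪ S)
    Finset.subset_union_left fun i _ _ => h0 i) ?_
  refine le_of_eq ?_
  symm
  refine Finset.sum_subset Finset.subset_union_right fun i _ hi => hz i hi

/-- Schur test, the `ℓ¹` sequence is the kernel -/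
lemma schurA {S : Finset ℤ} {x b z : ℤ → ℝ} (hb : ∀ k, 0 ≤ b k) (hbS : ∀ k, k ∉ S → b k = 0) :
    ∑ k ∈ S, ∑ l ∈ S, x k * b (k - l) * z l ≤
      (1 / 2) * (∑ k ∈ S, x k ^ 2 + ∑ k ∈ S, z k ^ 2) * ∑ k ∈ S, b k := by
  have h1 : ∀ k l, x k * b (k - l) * z l ≤
      (1 / 2) * (x k ^ 2 * b (k - l)) + (1 / 2) * (z l ^ 2 * b (k - l)) := by
    intro k l
    nlinarith [mul_nonneg (sq_nonneg (x k - z l)) (hb (k - l))]
  refine le_trans (Finset.sum_le_sum fun k _ => Finset.sum_le_sum fun l _ => h1 k l) ?_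
  simp only [Finset.sum_add_distrib]
  have h2 : ∑ k ∈ S, ∑ l ∈ S, (1 / 2) * (x k ^ 2 * b (k - l)) ≤
      (1 / 2) * (∑ k ∈ S, x k ^ 2) * ∑ k ∈ S, b k := by
    simp only [← Finset.mul_sum]
    rw [mul_assoc, Finset.sum_mul]
    exact mul_le_mul_of_nonneg_left (Finset.sum_le_sum fun k _ =>
      mul_le_mul_of_nonneg_left (shift1 hb hbS k) (sq_nonneg _)) (by norm_num)
  have h3 : ∑ k ∈ S, ∑ l ∈ S, (1 / 2) * (z l ^ 2 * b (k - l)) ≤
      (1 / 2) * (∑ k ∈ S, z k ^ 2) * ∑ k ∈ S, b k := by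
    rw [Finset.sum_comm]
    simp only [← Finset.mul_sum]
    rw [mul_assoc, Finset.sum_mul]
    exact mul_le_mul_of_nonneg_left (Finset.sum_le_sum fun l _ =>
      mul_le_mul_of_nonneg_left (shift2 hb hbS l) (sq_nonneg _)) (by norm_num)
  linarith

/-- Schur test, the `ℓ¹` sequence is the second argument -/
lemma schurB {S : Finset ℤ} {x y a : ℤ → ℝ} (hyS : ∀ k, k ∉ S → y k = 0) (ha : ∀ k, 0 ≤ a k) :
    ∑ k ∈ S, ∑ l ∈ S, x k * y (k - l) * a l ≤
      (1 / 2) * (∑ k ∈ S, x k ^ 2 + ∑ k ∈ S, y k ^ 2) * ∑ k ∈ S, a k := by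
  have h1 : ∀ k l, x k * y (k - l) * a l ≤ (1 / 2) * (x k ^ 2 + y (k - l) ^ 2) * a l := by
    intro k l
    nlinarith [mul_nonneg (sq_nonneg (x k - y (k - l))) (ha l)]
  refine le_trans (Finset.sum_le_sum fun k _ => Finset.sum_le_sum fun l _ => h1 k l) ?_
  rw [Finset.sum_comm, Finset.mul_sum]
  refine Finset.sum_le_sum fun l _ => ?_
  rw [← Finset.sum_mul, ← Finset.mul_sum, Finset.sum_add_distrib]
  have h2 := shift2 (S := S) (z := fun k => y k ^ 2) (fun k => sq_nonneg _)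
    (fun k hk => by simp [hyS k hk]) l
  have := ha l
  gcongr

end Sums

section Weights

/-- the weight `(1 + |k|)^s` -/
noncomputable def mm (s : ℕ) (k : ℤ) : ℝ := (1 + |(k : ℝ)|) ^ s

lemma mm_pos (s : ℕ) (k : ℤ) : 0 < mm s k := by
  unfold mm; positivity

lemma one_le_mm (s : ℕ) (k : ℤ) : 1 ≤ mm s k :=
  one_le_pow₀ (by have := abs_nonneg (k : ℝ); linarith)

lemma mm_zero (k : ℤ) : mm 0 k = 1 := by simp [mm]

lemma abs_tri (k l : ℤ) : |(k : ℝ)| ≤ |((k - l : ℤ) : ℝ)| + |(l : ℝ)| := by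
  push_cast
  calc |(k : ℝ)| = |(k - l : ℝ) + l| := by congr 1; ring
    _ ≤ _ := abs_add_le _ _

lemma mm_tri (s : ℕ) (k l : ℤ) : mm s k ≤ 2 ^ s * (mm s (k - l) + mm s l) := by
  have h := abs_tri k l
  unfold mm
  set a := 1 + |((k - l : ℤ) : ℝ)| with ha
  set b := 1 + |(l : ℝ)| with hb
  have ha0 : 0 < a := by positivity
  have hb0 : 0 < b := by positivity
  have h1 : 1 + |(k : ℝ)| ≤ 2 * max a b := by
    have h2 := le_max_left a b
    have h3 := le_max_right a b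
    linarith
  calc (1 + |(k : ℝ)|) ^ s ≤ (2 * max a b) ^ s := by gcongr
    _ = 2 ^ s * max a b ^ s := mul_pow _ _ _
    _ ≤ 2 ^ s * (a ^ s + b ^ s) := by
      gcongr
      rcases max_cases a b with ⟨h4, _⟩ | ⟨h4, _⟩ <;> rw [h4]
      · linarith [pow_pos hb0 s]
      · linarith [pow_pos ha0 s]

/-- the commutator inequality -/
lemma mm_comm (s : ℕ) (k l : ℤ) :
    |(l : ℝ)| * |mm (s + 1) k - mm (s + 1) l| ≤
      |((k - l : ℤ) : ℝ)| * ((s + 1) * 2 ^ s) * (mm (s + 1) (k - l) + 2 * mm (s + 1) l) := by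
  have h := abs_tri k l
  unfold mm
  set A := |((k - l : ℤ) : ℝ)| with hA
  set a := 1 + A with ha
  set b := 1 + |(l : ℝ)| with hb
  set x := 1 + |(k : ℝ)| with hx
  have hA0 : 0 ≤ A := abs_nonneg _
  have ha0 : 0 < a := by positivity
  have hb0 : 0 < b := by positivity
  have hx0 : 0 < x := by positivity
  have h1 : |x ^ (s + 1) - b ^ (s + 1)| ≤ |x - b| * ((s + 1 : ℕ) : ℝ) * max |x| |b| ^ s :=
    abs_pow_sub_pow_le (a := x) (b := b) (n := s + 1)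
  rw [abs_of_pos hx0, abs_of_pos hb0] at h1
  have h2 : |x - b| ≤ A := by
    have e : x - b = |(k : ℝ)| - |(l : ℝ)| := by rw [hx, hb]; ring
    rw [e, hA]
    push_cast
    exact abs_abs_sub_abs_le _ _
  have h3 : max x b ≤ 2 * max a b := by
    have h4 := le_max_left a b
    have h5 := le_max_right a b
    refine max_le ?_ ?_
    · have : x ≤ a + b := by linarith
      linarith
    · linarith
  have h6 : |x ^ (s + 1) - b ^ (s + 1)| ≤ A * (s + 1) * (2 ^ s * max a b ^ s) := by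
    refine h1.trans ?_
    rw [← mul_pow]
    push_cast
    gcongr
  have h7 : |(l : ℝ)| ≤ b := by rw [hb]; linarith
  have h8 : b * max a b ^ s ≤ a ^ (s + 1) + 2 * b ^ (s + 1) := by
    have hm : 0 < max a b := lt_max_of_lt_left ha0
    calc b * max a b ^ s ≤ max a b * max a b ^ s := by gcongr; exact le_max_right _ _
      _ = max a b ^ (s + 1) := by ring
      _ ≤ a ^ (s + 1) + b ^ (s + 1) := by
        rcases max_cases a b with ⟨h4, _⟩ | ⟨h4, _⟩ <;> rw [h4]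
        · linarith [pow_pos hb0 (s + 1)]
        · linarith [pow_pos ha0 (s + 1)]
      _ ≤ _ := by linarith [pow_pos hb0 (s + 1)]
  calc |(l : ℝ)| * |x ^ (s + 1) - b ^ (s + 1)|
      ≤ b * (A * (s + 1) * (2 ^ s * max a b ^ s)) := by gcongr
    _ = A * ((s + 1) * 2 ^ s) * (b * max a b ^ s) := by ring
    _ ≤ _ := by gcongr

end Weights

section Energy

variable {S : Finset ℤ}

/-- The symmetrised transport term. -/
lemma transport_re {c e : ℤ → ℂ} (hc : ∀ k, c (-k) = conj (c k)) (hcS : ∀ k, k ∉ S → c k = 0) :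
    |(∑ k ∈ S, ∑ l ∈ S, conj (e k) *
        (Complex.I * (((l : ℤ) : ℂ) / ((|k - l| : ℤ) : ℂ)) * c (k - l)) * e l).re| ≤
      (1 / 2) * (∑ k ∈ S, ‖c k‖) * ∑ k ∈ S, ‖e k‖ ^ 2 := by
  set Q : ℂ := ∑ k ∈ S, ∑ l ∈ S, conj (e k) *
        (Complex.I * (((l : ℤ) : ℂ) / ((|k - l| : ℤ) : ℂ)) * c (k - l)) * e l with hQ
  have h1 : conj Q = ∑ k ∈ S, ∑ l ∈ S, conj (e k) *
        (-Complex.I * (((k : ℤ) : ℂ) / ((|k - l| : ℤ) : ℂ)) * c (k - l)) * e l := by
    rw [hQ, map_sum, Finset.sum_comm]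
    refine Finset.sum_congr rfl fun k _ => ?_
    rw [map_sum]
    refine Finset.sum_congr rfl fun l _ => ?_
    simp only [map_mul, map_div₀, Complex.conj_conj, Complex.conj_I, map_intCast]
    have h2 : conj (c (k - l)) = c (l - k) := by
      rw [← hc, neg_sub]
    rw [h2, abs_sub_comm l k]
    ring
  have h2 : Q + conj Q = ∑ k ∈ S, ∑ l ∈ S, conj (e k) *
        (Complex.I * (((l - k : ℤ) : ℂ) / ((|k - l| : ℤ) : ℂ)) * c (k - l)) * e l := by
    rw [h1, hQ, ← Finset.sum_add_distrib]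
    refine Finset.sum_congr rfl fun k _ => ?_
    rw [← Finset.sum_add_distrib]
    refine Finset.sum_congr rfl fun l _ => ?_
    push_cast
    ring
  have h3 : Q + conj Q = ((2 * Q.re : ℝ) : ℂ) := Complex.add_conj Q
  have h4 : 2 * |Q.re| = ‖Q + conj Q‖ := by
    rw [h3, Complex.norm_real, Real.norm_eq_abs, abs_mul, abs_of_pos (by norm_num : (0 : ℝ) < 2)]
  have h5 : ‖Q + conj Q‖ ≤ ∑ k ∈ S, ∑ l ∈ S, ‖e k‖ * ‖c (k - l)‖ * ‖e l‖ := by
    rw [h2]
    refine (norm_sum_le _ _).trans (Finset.sum_le_sum fun k _ => (norm_sum_le _ _).trans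
      (Finset.sum_le_sum fun l _ => ?_))
    rw [norm_mul, norm_mul, norm_mul, norm_mul, Complex.norm_I, one_mul, Complex.norm_conj]
    have h6 : ‖((l - k : ℤ) : ℂ) / ((|k - l| : ℤ) : ℂ)‖ ≤ 1 := by
      rw [norm_div, Complex.norm_intCast, Complex.norm_intCast, Int.cast_abs, abs_abs,
        ← abs_neg, ← Int.cast_neg, neg_sub]
      exact div_self_le_one _
    have h7 := norm_nonneg (c (k - l))
    have h8 := norm_nonneg (e l)
    have h9 := norm_nonneg (e k)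
    calc ‖e k‖ * (‖((l - k : ℤ) : ℂ) / ((|k - l| : ℤ) : ℂ)‖ * ‖c (k - l)‖) * ‖e l‖
        ≤ ‖e k‖ * (1 * ‖c (k - l)‖) * ‖e l‖ := by gcongr
      _ = _ := by ring
  have h6 := schurA (S := S) (x := fun k => ‖e k‖) (z := fun k => ‖e k‖) (b := fun k => ‖c k‖)
    (fun k => norm_nonneg _) (fun k hk => by simp [hcS k hk])
  have h7 : 2 * |Q.re| ≤ (1 / 2) * (∑ k ∈ S, ‖e k‖ ^ 2 + ∑ k ∈ S, ‖e k‖ ^ 2) * ∑ k ∈ S, ‖c k‖ := by
    rw [h4]; exact h5.trans h6
  linarith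

lemma norm_div_abs_le (a : ℤ) (x : ℤ) (C : ℝ) (hC : 0 ≤ C) (h : |(a : ℝ)| ≤ C * |(x : ℝ)|) :
    ‖(a : ℂ) / ((|x| : ℤ) : ℂ)‖ ≤ C := by
  rw [norm_div, Complex.norm_intCast, Complex.norm_intCast, Int.cast_abs, abs_abs]
  exact div_le_of_le_mul₀ (abs_nonneg _) hC h

/-- the constant of the energy inequality for the weight `(1 + |k|)^(s+1)` -/
noncomputable def KE (s : ℕ) : ℝ := 1 / 2 + (3 * ((s + 1) * 2 ^ s) + 2 * 2 ^ (s + 1))

lemma KE_pos (s : ℕ) : 0 < KE s := by unfold KE; positivity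

/-- The energy inequality. -/
theorem energy (s : ℕ) {c : ℤ → ℂ} (hc : ∀ k, c (-k) = conj (c k))
    (hcS : ∀ k, k ∉ S → c k = 0) :
    |(∑ k ∈ S, ((mm (s + 1) k ^ 2 : ℝ) : ℂ) * (conj (c k) * bb S c c k)).re| ≤
      KE s * (∑ k ∈ S, ‖c k‖) * ∑ k ∈ S, mm (s + 1) k ^ 2 * ‖c k‖ ^ 2 := by
  set e : ℤ → ℂ := fun k => (mm (s + 1) k : ℂ) * c k with he
  have hen : ∀ k, ‖e k‖ = mm (s + 1) k * ‖c k‖ := by
    intro k
    rw [he]
    simp only
    rw [norm_mul, Complex.norm_real, Real.norm_eq_abs, abs_of_pos (mm_pos _ _)]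
  have heS : ∀ k, k ∉ S → e k = 0 := fun k hk => by simp [he, hcS k hk]
  have hE : ∑ k ∈ S, mm (s + 1) k ^ 2 * ‖c k‖ ^ 2 = ∑ k ∈ S, ‖e k‖ ^ 2 := by
    refine Finset.sum_congr rfl fun k _ => ?_
    rw [hen]; ring
  set A : ℝ := ∑ k ∈ S, ‖c k‖ with hA
  set E : ℝ := ∑ k ∈ S, ‖e k‖ ^ 2 with hEdef
  rw [hE]
  set T0 : ℤ → ℤ → ℂ := fun k l => conj (e k) *
        (Complex.I * (((l : ℤ) : ℂ) / ((|k - l| : ℤ) : ℂ)) * c (k - l)) * e l with hT0
  set T1 : ℤ → ℤ → ℂ := fun k l => conj (e k) *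
        (Complex.I * ((((l : ℤ) : ℂ) * (((mm (s + 1) k - mm (s + 1) l : ℝ)) : ℂ)) /
          ((|k - l| : ℤ) : ℂ)) * c (k - l)) * c l with hT1
  set T2 : ℤ → ℤ → ℂ := fun k l => conj (e k) * ((mm (s + 1) k : ℝ) : ℂ) *
        (Complex.I * (((k - l : ℤ) : ℂ) / ((|k - l| : ℤ) : ℂ)) * c (k - l)) * c l with hT2
  have hsum : ∑ k ∈ S, ((mm (s + 1) k ^ 2 : ℝ) : ℂ) * (conj (c k) * bb S c c k) =
      (∑ k ∈ S, ∑ l ∈ S, T0 k l) + ∑ k ∈ S, ∑ l ∈ S, (T1 k l - T2 k l) := by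
    rw [← Finset.sum_add_distrib]
    refine Finset.sum_congr rfl fun k _ => ?_
    rw [← Finset.sum_add_distrib, bb, Finset.mul_sum, Finset.mul_sum, Finset.mul_sum]
    refine Finset.sum_congr rfl fun l _ => ?_
    simp only [hT0, hT1, hT2, he, map_mul, Complex.conj_ofReal]
    push_cast
    ring
  have h1 := transport_re (S := S) (c := c) (e := e) hc hcS
  have h2 : ∀ k l, ‖T1 k l - T2 k l‖ ≤
      ((s + 1) * 2 ^ s + 2 ^ (s + 1)) * (‖e k‖ * ‖e (k - l)‖ * ‖c l‖) +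
      (2 * ((s + 1) * 2 ^ s) + 2 ^ (s + 1)) * (‖e k‖ * ‖c (k - l)‖ * ‖e l‖) := by
    intro k l
    have hk := norm_nonneg (e k)
    have hc1 := norm_nonneg (c (k - l))
    have hc2 := norm_nonneg (c l)
    have hm1 := mm_pos (s + 1) (k - l)
    have hm2 := mm_pos (s + 1) l
    have h3 : ‖T1 k l‖ ≤ ‖e k‖ * (((s + 1) * 2 ^ s) *
        (mm (s + 1) (k - l) + 2 * mm (s + 1) l)) * ‖c (k - l)‖ * ‖c l‖ := by
      simp only [hT1]
      rw [norm_mul, norm_mul, norm_mul, norm_mul, Complex.norm_I, one_mul, Complex.norm_conj]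
      have h4 : ‖(((l : ℤ) : ℂ) * (((mm (s + 1) k - mm (s + 1) l : ℝ)) : ℂ)) /
          ((|k - l| : ℤ) : ℂ)‖ ≤ ((s + 1) * 2 ^ s) *
          (mm (s + 1) (k - l) + 2 * mm (s + 1) l) := by
        rw [norm_div, norm_mul, Complex.norm_intCast, Complex.norm_intCast, Complex.norm_real,
          Real.norm_eq_abs, Int.cast_abs, abs_abs]
        refine div_le_of_le_mul₀ (abs_nonneg _) (by positivity) ?_
        have := mm_comm s k l
        calc |(l : ℝ)| * |mm (s + 1) k - mm (s + 1) l| ≤ _ := this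
          _ = _ := by ring
      calc _ ≤ ‖e k‖ * (((s + 1) * 2 ^ s * (mm (s + 1) (k - l) + 2 * mm (s + 1) l)) *
            ‖c (k - l)‖) * ‖c l‖ := by gcongr
        _ = _ := by ring
    have h5 : ‖T2 k l‖ ≤ ‖e k‖ * (2 ^ (s + 1) * (mm (s + 1) (k - l) + mm (s + 1) l)) *
        ‖c (k - l)‖ * ‖c l‖ := by
      simp only [hT2]
      rw [norm_mul, norm_mul, norm_mul, norm_mul, norm_mul, Complex.norm_I, one_mul,
        Complex.norm_conj, Complex.norm_real, Real.norm_eq_abs, abs_of_pos (mm_pos _ _)]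
      have h6 : ‖((k - l : ℤ) : ℂ) / ((|k - l| : ℤ) : ℂ)‖ ≤ 1 :=
        norm_div_abs_le _ _ 1 zero_le_one (by rw [one_mul])
      have h7 := mm_tri (s + 1) k l
      have h8 := mm_pos (s + 1) k
      calc ‖e k‖ * mm (s + 1) k * (‖((k - l : ℤ) : ℂ) / ((|k - l| : ℤ) : ℂ)‖ * ‖c (k - l)‖) *
            ‖c l‖ ≤ ‖e k‖ * (2 ^ (s + 1) * (mm (s + 1) (k - l) + mm (s + 1) l)) *
            (1 * ‖c (k - l)‖) * ‖c l‖ := by gcongr
        _ = _ := by ring
    refine (norm_sub_le _ _).trans ((add_le_add h3 h5).trans (le_of_eq ?_))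
    rw [hen (k - l), hen l]
    ring
  have h3 : ‖∑ k ∈ S, ∑ l ∈ S, (T1 k l - T2 k l)‖ ≤
      ((s + 1) * 2 ^ s + 2 ^ (s + 1)) * (E * A) + (2 * ((s + 1) * 2 ^ s) + 2 ^ (s + 1)) * (E * A) := by
    have h4 := schurB (S := S) (x := fun k => ‖e k‖) (y := fun k => ‖e k‖) (a := fun k => ‖c k‖)
      (fun k hk => by simp [heS k hk]) (fun k => norm_nonneg _)
    have h5 := schurA (S := S) (x := fun k => ‖e k‖) (z := fun k => ‖e k‖) (b := fun k => ‖c k‖)
      (fun k => norm_nonneg _) (fun k hk => by simp [hcS k hk])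
    have h6 : (1 / 2 : ℝ) * (E + E) * A = E * A := by ring
    rw [h6] at h4 h5
    refine (norm_sum_le _ _).trans ((Finset.sum_le_sum fun k _ => (norm_sum_le _ _).trans
      (Finset.sum_le_sum fun l _ => h2 k l)).trans ?_)
    simp only [Finset.sum_add_distrib, ← Finset.mul_sum]
    gcongr
  have h4 : |(∑ k ∈ S, ((mm (s + 1) k ^ 2 : ℝ) : ℂ) * (conj (c k) * bb S c c k)).re| ≤
      (1 / 2) * A * E + (((s + 1) * 2 ^ s + 2 ^ (s + 1)) * (E * A) +
        (2 * ((s + 1) * 2 ^ s) + 2 ^ (s + 1)) * (E * A)) := by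
    rw [hsum, Complex.add_re]
    refine (abs_add_le _ _).trans (add_le_add h1 ?_)
    exact (Complex.abs_re_le_norm _).trans h3
  refine h4.trans (le_of_eq ?_)
  unfold KE
  ring

end Energy

end Pool.Agent.H58.DGL
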