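import Pool.Agent.H58.DGL.Energy
import Pool.Agent.H58.DGL.Ode

/-!
# The truncated system with a cut-off: global solutions
-/

set_option autoImplicit false
open Finset Set
open scoped ComplexConjugate Topology

namespace Pool.Agent.H58.DGL

/-- the weighted norm squared -/
noncomputable def EE (s : ℕ) (S : Finset ℤ) (c : ℤ → ℂ) : ℝ := ∑ k ∈ S, mm s k ^ 2 * ‖c k‖ ^ 2

lemma EE_nonneg (s : ℕ) (S : Finset ℤ) (c : ℤ → ℂ) : 0 ≤ EE s S c :=
  Finset.sum_nonneg fun _ _ => by positivity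

lemma norm_sq_le_EE (s : ℕ) {S : Finset ℤ} (c : ℤ → ℂ) {k : ℤ} (hk : k ∈ S) :
    ‖c k‖ ^ 2 ≤ EE s S c := by
  have h1 : mm s k ^ 2 * ‖c k‖ ^ 2 ≤ EE s S c :=
    Finset.single_le_sum (f := fun k => mm s k ^ 2 * ‖c k‖ ^ 2) (fun _ _ => by positivity) hk
  have h2 : 1 ≤ mm s k ^ 2 := one_le_pow₀ (one_le_mm s k)
  nlinarith [sq_nonneg ‖c k‖]

/-- the quadratic term commutes with the symmetry `c ↦ (k ↦ conj (c (-k)))` -/
lemma bb_star {S : Finset ℤ} (hS : ∀ k ∈ S, -k ∈ S) (c : ℤ → ℂ) (k : ℤ) :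
    bb S (fun k => conj (c (-k))) (fun k => conj (c (-k))) k = conj (bb S c c (-k)) := by
  rw [bb, bb, map_mul, Complex.conj_I, map_sum]
  have h1 : ∑ l ∈ S, conj ((((2 * l - -k : ℤ) : ℂ) / ((|-k - l| : ℤ) : ℂ)) * c (-k - l) * c l) =
      ∑ l ∈ S, -((((2 * l - k : ℤ) : ℂ) / ((|k - l| : ℤ) : ℂ)) * conj (c (-(k - l))) *
        conj (c (-l))) := by
    refine Finset.sum_nbij' (fun l => -l) (fun l => -l) (fun l hl => hS l hl)
      (fun l hl => hS l hl) (fun l _ => neg_neg l) (fun l _ => neg_neg l) fun l _ => ?_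
    simp only [map_mul, map_div₀, map_intCast, neg_neg]
    have h2 : -k - l = -(k - -l) := by ring
    have h3 : |-k - l| = |k - -l| := by rw [h2, abs_neg]
    rw [h3, h2]
    push_cast
    ring
  rw [h1, Finset.sum_neg_distrib]
  ring

section Ext

variable (S : Finset ℤ)

/-- extension by zero -/
noncomputable def ext (v : S → ℂ) (k : ℤ) : ℂ := if h : k ∈ S then v ⟨k, h⟩ else 0

lemma ext_of_mem {v : S → ℂ} {k : ℤ} (h : k ∈ S) : ext S v k = v ⟨k, h⟩ := dif_pos h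

lemma ext_of_notMem {v : S → ℂ} {k : ℤ} (h : k ∉ S) : ext S v k = 0 := dif_neg h

lemma contDiff_ext (k : ℤ) : ContDiff ℝ 1 (fun v : S → ℂ => ext S v k) := by
  by_cases h : k ∈ S
  · simp only [ext_of_mem S h]
    exact contDiff_apply ℝ ℂ (⟨k, h⟩ : S)
  · simp only [ext_of_notMem S h]
    exact contDiff_const

lemma contDiff_bb_ext (k : ℤ) : ContDiff ℝ 1 (fun v : S → ℂ => bb S (ext S v) (ext S v) k) := by
  unfold bb
  refine contDiff_const.mul (ContDiff.sum fun l _ => ?_)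
  exact (contDiff_const.mul (contDiff_ext S _)).mul (contDiff_ext S _)

lemma contDiff_EE_ext (s : ℕ) : ContDiff ℝ 1 (fun v : S → ℂ => EE s S (ext S v)) := by
  unfold EE
  refine ContDiff.sum fun l _ => ?_
  exact contDiff_const.mul ((contDiff_ext S _).norm_sq ℝ)

/-- the truncated field with cut-off -/
noncomputable def fld (θ : ℝ → ℝ) (v : S → ℂ) : S → ℂ :=
  fun k => (θ (EE 1 S (ext S v)) : ℂ) * bb S (ext S v) (ext S v) k

lemma contDiff_fld {θ : ℝ → ℝ} (hθ : ContDiff ℝ 1 θ) : ContDiff ℝ 1 (fld S θ) := by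
  rw [contDiff_pi]
  intro k
  unfold fld
  refine ContDiff.mul ?_ (contDiff_bb_ext S _)
  exact Complex.ofRealCLM.contDiff.comp (hθ.comp (contDiff_EE_ext S 1))

lemma hasCompactSupport_fld {θ : ℝ → ℝ} {R : ℝ} (hθR : ∀ y, R ≤ y → θ y = 0) :
    HasCompactSupport (fld S θ) := by
  refine HasCompactSupport.intro (isCompact_closedBall (0 : S → ℂ) (|R| + 1)) fun v hv => ?_
  have h1 : R ≤ EE 1 S (ext S v) := by
    by_contra hcon
    push Not at hcon
    apply hv
    rw [mem_closedBall_zero_iff, pi_norm_le_iff_of_nonneg (by positivity)]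
    intro k
    have h2 := norm_sq_le_EE 1 (ext S v) k.2
    rw [ext_of_mem S k.2] at h2
    have h3 : ‖v k‖ ^ 2 ≤ |R| := h2.trans (hcon.le.trans (le_abs_self R))
    nlinarith [abs_nonneg R, norm_nonneg (v k)]
  funext k
  simp [fld, hθR _ h1]

/-- the symmetry on the state space -/
noncomputable def sta (hS : ∀ k ∈ S, -k ∈ S) (v : S → ℂ) : S → ℂ :=
  fun k => conj (v ⟨-k, hS k k.2⟩)

lemma ext_sta (hS : ∀ k ∈ S, -k ∈ S) (v : S → ℂ) (k : ℤ) :
    ext S (sta S hS v) k = conj (ext S v (-k)) := by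
  by_cases h : k ∈ S
  · rw [ext_of_mem S h, ext_of_mem S (hS k h)]; rfl
  · have h' : -k ∉ S := fun h2 => h (by simpa using hS _ h2)
    rw [ext_of_notMem S h, ext_of_notMem S h', map_zero]

lemma fld_sta (hS : ∀ k ∈ S, -k ∈ S) (θ : ℝ → ℝ) (v : S → ℂ) :
    fld S θ (sta S hS v) = sta S hS (fld S θ v) := by
  have h1 : ext S (sta S hS v) = fun k => conj (ext S v (-k)) := funext fun k => ext_sta S hS v k
  have h2 : EE 1 S (ext S (sta S hS v)) = EE 1 S (ext S v) := by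
    unfold EE
    refine Finset.sum_nbij' (fun l => -l) (fun l => -l) (fun l hl => hS l hl)
      (fun l hl => hS l hl) (fun l _ => neg_neg l) (fun l _ => neg_neg l) fun l _ => ?_
    rw [ext_sta, Complex.norm_conj]
    simp [mm]
  funext k
  simp only [fld, h2, sta, map_mul, Complex.conj_ofReal]
  congr 1
  rw [h1, bb_star hS]

end Ext

theorem galerkin {S : Finset ℤ} (hS : ∀ k ∈ S, -k ∈ S) {θ : ℝ → ℝ} (hθ : ContDiff ℝ 1 θ)
    {R : ℝ} (hθR : ∀ y, R ≤ y → θ y = 0) {c0 : ℤ → ℂ} (h0 : ∀ k, c0 (-k) = conj (c0 k))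
    (h0S : ∀ k, k ∉ S → c0 k = 0) :
    ∃ c : ℝ → ℤ → ℂ, c 0 = c0 ∧ (∀ t k, c t (-k) = conj (c t k)) ∧
      (∀ t k, k ∉ S → c t k = 0) ∧
      ∀ t, ∀ k ∈ S, HasDerivAt (fun t => c t k)
        ((θ (EE 1 S (c t)) : ℂ) * bb S (c t) (c t) k) t := by
  have hC := contDiff_fld S hθ
  have hK := hasCompactSupport_fld S hθR
  obtain ⟨α, hα0, hα⟩ := ode_global_compact hC hK (fun k : S => c0 k)
  obtain ⟨K, hLip⟩ := hC.lipschitzWith_of_hasCompactSupport hK one_ne_zero
  have hα' : ∀ t (k : S), HasDerivAt (fun t => α t k) (fld S θ (α t) k) t := fun t k =>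
    (hasDerivAt_pi.mp (hα t)) k
  have hsta : ∀ t, HasDerivAt (fun t => sta S hS (α t)) (fld S θ (sta S hS (α t))) t := by
    intro t
    rw [fld_sta, hasDerivAt_pi]
    intro k
    have h1 := (hα' t ⟨-k, hS k k.2⟩)
    exact h1.star
  have huniq : (fun t => sta S hS (α t)) = α := by
    refine ODE_solution_unique_univ (v := fun _ => fld S θ) (s := fun _ => Set.univ) (K := K)
      (t₀ := 0) (fun _ => hLip.lipschitzOnWith) (fun t => ⟨hsta t, Set.mem_univ _⟩)
      (fun t => ⟨hα t, Set.mem_univ _⟩) ?_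
    simp only [hα0]
    funext k
    simp only [sta]
    rw [h0, Complex.conj_conj]
  refine ⟨fun t => ext S (α t), ?_, ?_, ?_, ?_⟩
  · funext k
    simp only [hα0]
    by_cases h : k ∈ S
    · rw [ext_of_mem S h]
    · rw [ext_of_notMem S h, h0S k h]
  · intro t k
    have h1 : sta S hS (α t) = α t := congrFun huniq t
    have h2 := ext_sta S hS (α t) k
    rw [h1] at h2
    change ext S (α t) (-k) = conj (ext S (α t) k)
    rw [h2, Complex.conj_conj]
  · intro t k hk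
    exact ext_of_notMem S hk
  · intro t k hk
    have h1 : (fun t => ext S (α t) k) = fun t => α t ⟨k, hk⟩ :=
      funext fun t => ext_of_mem S hk
    rw [h1]
    exact hα' t ⟨k, hk⟩

end Pool.Agent.H58.DGL
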